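import Pool.Agent.H94_lr.Val

/-!
# Specialization of finitely generated algebras of power series
-/

namespace Pool.Agent.H94_lr

open PowerSeries

noncomputable section

variable {K : Type*} [Field K] [Algebra ℂ K] {Γ : Type*} [LinearOrderedCommGroupWithZero Γ]
  {v : Valuation K Γ} {τ : K}

/-- Existence of specializations close to the given power series. -/
def Spz (v : Valuation K Γ) (τ : K) (A : Subalgebra ℂ ℂ⟦X⟧) : Prop :=
  ∀ M, ∃ φ : A →ₐ[ℂ] K, ∀ a : A, Rel v τ M (φ a) a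

theorem Spz.mono {A B : Subalgebra ℂ ℂ⟦X⟧} (hAB : A ≤ B) (hB : Spz v τ B) : Spz v τ A := by
  intro M
  obtain ⟨φ, hφ⟩ := hB M
  exact ⟨φ.comp (Subalgebra.inclusion hAB), fun a => hφ (Subalgebra.inclusion hAB a)⟩

theorem Spz.bot (h : VD v τ) : Spz v τ ⊥ := by
  intro M
  refine ⟨(Algebra.ofId ℂ K).comp (Algebra.botEquiv ℂ ℂ⟦X⟧).toAlgHom, fun a => ?_⟩
  obtain ⟨c, rfl⟩ := (Algebra.botEquiv ℂ ℂ⟦X⟧).symm.surjective a
  have h1 : ((Algebra.ofId ℂ K).comp (Algebra.botEquiv ℂ ℂ⟦X⟧).toAlgHom)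
      ((Algebra.botEquiv ℂ ℂ⟦X⟧).symm c) = algebraMap ℂ K c := by
    simp
  rw [h1, Algebra.botEquiv_symm_apply]
  exact Rel.cst h M c

/-- The range of the evaluation at `θ`. -/
def adj (A : Subalgebra ℂ ℂ⟦X⟧) (θ : ℂ⟦X⟧) : Subalgebra ℂ ℂ⟦X⟧ where
  carrier := {f | ∃ Q : Polynomial A, Q.eval₂ A.val.toRingHom θ = f}
  mul_mem' := by
    rintro _ _ ⟨Q, rfl⟩ ⟨Q', rfl⟩
    exact ⟨Q * Q', Polynomial.eval₂_mul _ _⟩
  add_mem' := by
    rintro _ _ ⟨Q, rfl⟩ ⟨Q', rfl⟩
    exact ⟨Q + Q', Polynomial.eval₂_add _ _⟩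
  algebraMap_mem' := by
    intro c
    exact ⟨Polynomial.C (algebraMap ℂ A c), by rw [Polynomial.eval₂_C]; rfl⟩

theorem le_adj (A : Subalgebra ℂ ℂ⟦X⟧) (θ : ℂ⟦X⟧) : A ≤ adj A θ := fun a ha =>
  ⟨Polynomial.C ⟨a, ha⟩, by rw [Polynomial.eval₂_C]; rfl⟩

theorem mem_adj (A : Subalgebra ℂ ℂ⟦X⟧) (θ : ℂ⟦X⟧) : θ ∈ adj A θ :=
  ⟨Polynomial.X, Polynomial.eval₂_X _ _⟩

/-- Lifting a homomorphism to the range. -/
theorem exists_lift {A : Subalgebra ℂ ℂ⟦X⟧} {θ : ℂ⟦X⟧} (ψ : Polynomial A →+* K)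
    (hc : ∀ c : ℂ, ψ (Polynomial.C (algebraMap ℂ A c)) = algebraMap ℂ K c)
    (hker : ∀ Q : Polynomial A, Q.eval₂ A.val.toRingHom θ = 0 → ψ Q = 0) :
    ∃ φ : adj A θ →ₐ[ℂ] K, ∀ (Q : Polynomial A) (a : adj A θ),
      Q.eval₂ A.val.toRingHom θ = a → φ a = ψ Q := by
  have hex : ∀ a : adj A θ, ∃ Q : Polynomial A, Q.eval₂ A.val.toRingHom θ = a := fun a => a.2
  choose s hs using hex
  have key : ∀ (Q Q' : Polynomial A), Q.eval₂ A.val.toRingHom θ = Q'.eval₂ A.val.toRingHom θ →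
      ψ Q = ψ Q' := by
    intro Q Q' hQ
    have h1 := hker (Q - Q') (by rw [Polynomial.eval₂_sub, hQ, sub_self])
    have h3 : (Q - Q') + Q' = Q := sub_add_cancel Q Q'
    have h2 : ψ ((Q - Q') + Q') = ψ (Q - Q') + ψ Q' := ψ.map_add _ _
    rw [h3, h1, zero_add] at h2
    exact h2
  let φ : adj A θ →ₐ[ℂ] K :=
    { toFun := fun a => ψ (s a)
      map_one' := by
        rw [← map_one ψ]
        apply key
        rw [hs, Polynomial.eval₂_one]; rfl
      map_mul' := by
        intro a b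
        rw [← map_mul ψ]
        apply key
        rw [hs, Polynomial.eval₂_mul, hs, hs]; rfl
      map_zero' := by
        rw [← map_zero ψ]
        apply key
        rw [hs, Polynomial.eval₂_zero]; rfl
      map_add' := by
        intro a b
        rw [← map_add ψ]
        apply key
        rw [hs, Polynomial.eval₂_add, hs, hs]; rfl
      commutes' := by
        intro c
        rw [← hc c]
        apply key
        rw [hs, Polynomial.eval₂_C]; rfl }
  refine ⟨φ, fun Q a hQ => ?_⟩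
  change ψ (s a) = ψ Q
  apply key
  rw [hs, hQ]

theorem rel_eval (h : VD v τ) {A : Subalgebra ℂ ℂ⟦X⟧} {θ : ℂ⟦X⟧} {M : ℕ} {φ : A →ₐ[ℂ] K}
    (hφ : ∀ a : A, Rel v τ M (φ a) a) {x : K} (hx : Rel v τ M x θ) (Q : Polynomial A) :
    Rel v τ M (Q.eval₂ (φ : A →+* K) x) (Q.eval₂ A.val.toRingHom θ) := by
  induction Q using Polynomial.induction_on with
  | C a =>
    rw [Polynomial.eval₂_C, Polynomial.eval₂_C]
    exact hφ a
  | add p q hp hq =>
    rw [Polynomial.eval₂_add, Polynomial.eval₂_add]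
    exact hp.add hq
  | monomial n a hn =>
    rw [pow_succ, ← mul_assoc, Polynomial.eval₂_mul_X, Polynomial.eval₂_mul_X]
    exact Rel.mul h hn hx

/-- The kernel of the specialization. -/
theorem ker_le {A : Subalgebra ℂ ℂ⟦X⟧} {θ : ℂ⟦X⟧} {φ : A →ₐ[ℂ] K} {P : Polynomial A}
    (hP : P.eval₂ A.val.toRingHom θ = 0)
    (hmin : ∀ Q : Polynomial A, Q ≠ 0 → Q.eval₂ A.val.toRingHom θ = 0 →
      P.natDegree ≤ Q.natDegree) (hlc : φ P.leadingCoeff ≠ 0) {x : K}
    (hx : P.eval₂ (φ : A →+* K) x = 0) (D : ℕ) : ∀ Q : Polynomial A, Q.degree < D →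
      Q.eval₂ A.val.toRingHom θ = 0 → Q.eval₂ (φ : A →+* K) x = 0 := by
  induction D with
  | zero =>
    intro Q hQ _
    have h1 : Q = 0 := by
      rw [← Polynomial.degree_eq_bot]
      have h2 : Q.degree < 0 := by exact_mod_cast hQ
      exact Polynomial.degree_eq_bot.mpr (by
        by_contra h3
        have h4 := Polynomial.zero_le_degree_iff.mpr h3
        exact absurd h2 (not_lt.mpr h4))
    rw [h1, Polynomial.eval₂_zero]
  | succ D ih =>
    intro Q hQ hQ0
    by_cases hQD : Q.degree < D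
    · exact ih Q hQD hQ0
    have hQne : Q ≠ 0 := by
      rintro rfl
      apply hQD
      rw [Polynomial.degree_zero]
      exact WithBot.bot_lt_coe D
    have hdeg : Q.natDegree = D := by
      have h1 : Q.natDegree < D + 1 := by
        rw [Polynomial.natDegree_lt_iff_degree_lt hQne]
        exact_mod_cast hQ
      have h2 : ¬ Q.natDegree < D := by
        rw [Polynomial.natDegree_lt_iff_degree_lt hQne]
        exact hQD
      omega
    have he := hmin Q hQne hQ0
    rw [hdeg] at he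
    obtain ⟨t, ht⟩ := Nat.exists_eq_add_of_le he
    set Q' : Polynomial A := Polynomial.C P.leadingCoeff * Q -
      Polynomial.C (Q.coeff D) * (Polynomial.X ^ t * P) with hQ'
    have h1 : Q'.degree < D := by
      rw [Polynomial.degree_lt_iff_coeff_zero]
      intro m hm
      rw [hQ', Polynomial.coeff_sub, Polynomial.coeff_C_mul, Polynomial.coeff_C_mul,
        Polynomial.coeff_X_pow_mul', if_pos (by omega)]
      rcases Nat.eq_or_lt_of_le hm with h2 | h2
      · subst h2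
        have h3 : D - t = P.natDegree := by omega
        rw [h3, Polynomial.coeff_natDegree]
        ring
      · rw [Polynomial.coeff_eq_zero_of_natDegree_lt (by omega : Q.natDegree < m),
          Polynomial.coeff_eq_zero_of_natDegree_lt (by omega : P.natDegree < m - t)]
        ring
    have h2 : Q'.eval₂ A.val.toRingHom θ = 0 := by
      rw [hQ', Polynomial.eval₂_sub, Polynomial.eval₂_mul, Polynomial.eval₂_mul,
        Polynomial.eval₂_mul, hQ0, hP, mul_zero, mul_zero, mul_zero, sub_zero]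
    have h3 := ih Q' h1 h2
    rw [hQ', Polynomial.eval₂_sub, Polynomial.eval₂_mul, Polynomial.eval₂_mul,
      Polynomial.eval₂_mul, hx, mul_zero, mul_zero, sub_zero, Polynomial.eval₂_C] at h3
    exact (mul_eq_zero.mp h3).resolve_left hlc

theorem exists_order {f : ℂ⟦X⟧} (hf : f ≠ 0) : ∃ (e : ℕ) (u : ℂ⟦X⟧), constantCoeff u ≠ 0 ∧
    f = X ^ e * u := by
  have h1 := coeff_order hf
  have h2 := X_pow_order_dvd (φ := f)
  generalize f.order.toNat = e at h1 h2
  obtain ⟨w, hw⟩ := h2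
  refine ⟨e, w, ?_, hw⟩
  rw [hw, coeff_X_pow_mul', if_pos le_rfl, Nat.sub_self,
    coeff_zero_eq_constantCoeff_apply] at h1
  exact h1

omit [Algebra ℂ K] in
/-- A lower bound for the values of a product. -/
theorem le_prod {v : Valuation K Γ} {ρ : Γ} (s : Multiset K) (hs : ∀ a ∈ s, ρ ≤ v a) :
    ρ ^ s.card ≤ v s.prod := by
  induction s using Multiset.induction_on with
  | empty => simp
  | cons a s ih =>
    rw [Multiset.card_cons, Multiset.prod_cons, map_mul, pow_succ']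
    exact mul_le_mul' (hs a (Multiset.mem_cons_self a s))
      (ih fun b hb => hs b (Multiset.mem_cons_of_mem hb))

/-- A root close to a given element. -/
theorem exists_root_near [IsAlgClosed K] (h : VD v τ) {p : Polynomial K} {y : K} {e0 M M' : ℕ}
    (hlc : v p.leadingCoeff = v τ ^ e0) (hy : v (p.eval y) ≤ v τ ^ M')
    (hM : e0 + p.natDegree * M < M') : ∃ x, p.eval x = 0 ∧ v (x - y) ≤ v τ ^ M := by
  by_contra hcon
  push Not at hcon
  have h1 := (IsAlgClosed.splits p).eq_prod_roots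
  have h2 := congrArg (Polynomial.eval y) h1
  rw [Polynomial.eval_mul, Polynomial.eval_C, Polynomial.eval_multiset_prod,
    Multiset.map_map] at h2
  rw [h2, map_mul, hlc] at hy
  have hp0 : p ≠ 0 := by
    rintro rfl
    rw [Polynomial.leadingCoeff_zero, map_zero] at hlc
    exact pow_ne_zero _ h.pos.ne' hlc.symm
  have h3 : (v τ ^ M) ^ p.natDegree ≤
      v (Multiset.map (Polynomial.eval y ∘ fun a => Polynomial.X - Polynomial.C a)
        p.roots).prod := by
    have h4 : (Multiset.map (Polynomial.eval y ∘ fun a => Polynomial.X - Polynomial.C a)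
        p.roots).card = p.natDegree := by
      rw [Multiset.card_map]
      exact (IsAlgClosed.splits p).natDegree_eq_card_roots.symm
    rw [← h4]
    apply le_prod
    intro a ha
    obtain ⟨b, hb, rfl⟩ := Multiset.mem_map.mp ha
    simp only [Function.comp_apply, Polynomial.eval_sub, Polynomial.eval_X, Polynomial.eval_C]
    have h5 := hcon b ((Polynomial.mem_roots hp0).mp hb)
    rw [Valuation.map_sub_swap] at h5
    exact h5.le
  have h4 : v τ ^ (e0 + p.natDegree * M) ≤ v τ ^ M' := by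
    rw [pow_add, mul_comm p.natDegree, pow_mul]
    exact (mul_le_mul_right h3 _).trans hy
  exact absurd h4 (not_le.mpr (pow_lt_pow_right_of_lt_one₀ h.pos h.lt hM))

/-- One more power series: the transcendental and the algebraic case. -/
theorem Spz.step [IsAlgClosed K] (h : VD v τ) {A : Subalgebra ℂ ℂ⟦X⟧} (hA : Spz v τ A)
    (θ : ℂ⟦X⟧) : Spz v τ (adj A θ) := by
  intro M
  suffices hS : ∃ (φ : A →ₐ[ℂ] K) (x : K), (∀ a : A, Rel v τ M (φ a) a) ∧ Rel v τ M x θ ∧
      ∀ Q : Polynomial A, Q.eval₂ A.val.toRingHom θ = 0 → Q.eval₂ (φ : A →+* K) x = 0 by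
    obtain ⟨φ, x, h1, h2, h3⟩ := hS
    obtain ⟨φ', hφ'⟩ := exists_lift (Polynomial.eval₂RingHom (φ : A →+* K) x) (fun c => by
      rw [Polynomial.coe_eval₂RingHom, Polynomial.eval₂_C]
      exact φ.commutes c) h3
    refine ⟨φ', fun a => ?_⟩
    obtain ⟨Q, hQ⟩ := a.2
    rw [hφ' Q a hQ, ← hQ]
    exact rel_eval h h1 h2 Q
  have hself : ∀ M, Rel v τ M (ev τ M θ) θ := by
    intro M
    rw [Rel, sub_self, map_zero]
    exact zero_le
  by_cases hinj : ∀ Q : Polynomial A, Q.eval₂ A.val.toRingHom θ = 0 → Q = 0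
  · obtain ⟨φ, hφ⟩ := hA M
    exact ⟨φ, ev τ M θ, hφ, hself M, fun Q hQ => by rw [hinj Q hQ, Polynomial.eval₂_zero]⟩
  push Not at hinj
  have hex : ∃ e, ∃ Q : Polynomial A, Q.eval₂ A.val.toRingHom θ = 0 ∧ Q ≠ 0 ∧
      Q.natDegree = e := by
    obtain ⟨Q, hQ, hQ'⟩ := hinj
    exact ⟨_, Q, hQ, hQ', rfl⟩
  classical
  obtain ⟨P, hP, hP0, hPe⟩ := Nat.find_spec hex
  have hmin : ∀ Q : Polynomial A, Q ≠ 0 → Q.eval₂ A.val.toRingHom θ = 0 →
      P.natDegree ≤ Q.natDegree := by
    intro Q hQ hQ'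
    rw [hPe]
    exact Nat.find_min' hex ⟨Q, hQ', hQ, rfl⟩
  have hlc0 : (P.leadingCoeff : ℂ⟦X⟧) ≠ 0 := by
    intro h0
    exact (Polynomial.leadingCoeff_ne_zero.mpr hP0) (Subtype.ext h0)
  obtain ⟨e0, u, hu, hlc⟩ := exists_order hlc0
  set M' := e0 + P.natDegree * M + M + 1 with hM'
  obtain ⟨φ, hφ⟩ := hA M'
  have hval : v (φ P.leadingCoeff) = v τ ^ e0 := by
    have h1 := hφ P.leadingCoeff
    rw [hlc] at h1
    exact Rel.val h hu h1 (by omega)
  have hne : φ P.leadingCoeff ≠ 0 := by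
    intro h0
    rw [h0, map_zero] at hval
    exact pow_ne_zero _ h.pos.ne' hval.symm
  set p : Polynomial K := P.map (φ : A →+* K) with hp
  have hpd : p.natDegree = P.natDegree := Polynomial.natDegree_map_of_leadingCoeff_ne_zero _ hne
  have hplc : p.leadingCoeff = φ P.leadingCoeff :=
    Polynomial.leadingCoeff_map_of_leadingCoeff_ne_zero _ hne
  have hpe : ∀ x, p.eval x = P.eval₂ (φ : A →+* K) x := fun x => Polynomial.eval_map _ _
  obtain ⟨x, hx0, hx⟩ := exists_root_near h (p := p) (y := ev τ M' θ) (e0 := e0) (M := M)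
    (M' := M') (by rw [hplc]; exact hval) (by
      have h1 := rel_eval h hφ (hself M') P
      rw [hP] at h1
      rw [hpe]
      have h2 : ev τ M' (0 : ℂ⟦X⟧) = 0 := by rw [ev, map_zero, map_zero]
      rw [Rel, h2, sub_zero] at h1
      exact h1) (by rw [hpd]; omega)
  refine ⟨φ, x, fun a => Rel.mono h (by omega) (hφ a), ?_, fun Q hQ => ?_⟩
  · have h1 : x - ev τ M θ = (x - ev τ M' θ) + (ev τ M' θ - ev τ M θ) := by ring
    rw [Rel, h1]
    exact Valuation.map_add_le _ hx (h.ev_ev (by omega) θ)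
  · refine ker_le hP hmin hne (by rw [← hpe]; exact hx0) (Q.natDegree + 1) Q ?_ hQ
    exact lt_of_le_of_lt Polynomial.degree_le_natDegree (by exact_mod_cast Nat.lt_succ_self _)

/-- Finitely generated algebras of power series. -/
theorem Spz.fg [IsAlgClosed K] (h : VD v τ) (s : Finset ℂ⟦X⟧) :
    Spz v τ (Algebra.adjoin ℂ (s : Set ℂ⟦X⟧)) := by
  classical
  induction s using Finset.induction_on with
  | empty =>
    rw [Finset.coe_empty, Algebra.adjoin_empty]
    exact Spz.bot h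
  | insert θ s _ ih =>
    refine Spz.mono ?_ (Spz.step h ih θ)
    rw [Algebra.adjoin_le_iff]
    intro f hf
    rw [Finset.coe_insert] at hf
    rcases hf with rfl | hf
    · exact mem_adj _ _
    · exact le_adj _ _ (Algebra.subset_adjoin hf)

end

end Pool.Agent.H94_lr
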