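import Pool.Agent.H94_lr.Pts
import Pool.Agent.H94_gen.Build

/-!
# Linear algebra for the orbit of a configuration
-/

namespace Pool.Agent.H94_lr

open H94_gen (parallel)

noncomputable section

variable {k ρ : ℕ}

section ring

variable {R : Type*} [CommRing R] [Algebra ℂ R]

/-- The matrix of the linear map `M ↦ (x i × M (f i))`. -/
def Am (f : Fin k → Fin 3 → ℂ) (x : Fin k → Fin 3 → R) :
    Matrix (Fin k × Fin 3) (Fin 3 × Fin 3) R :=
  Matrix.of fun ib rs => crossProduct (x ib.1) (Pi.single rs.1 1) ib.2 *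
    algebraMap ℂ R (f ib.1 rs.2)

/-- The vector of a matrix. -/
def vecM (M : Matrix (Fin 3) (Fin 3) R) : Fin 3 × Fin 3 → R := fun rs => M rs.1 rs.2

/-- The matrix of a vector. -/
def matV (m : Fin 3 × Fin 3 → R) : Matrix (Fin 3) (Fin 3) R := Matrix.of fun r s => m (r, s)

theorem Am_mulVec (f : Fin k → Fin 3 → ℂ) (x : Fin k → Fin 3 → R) (m : Fin 3 × Fin 3 → R)
    (i : Fin k) (b : Fin 3) : (Am f x).mulVec m (i, b) =
      crossProduct (x i) ((matV m).mulVec (fun s => algebraMap ℂ R (f i s))) b := by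
  have h1 : (Am f x).mulVec m (i, b) = ∑ r, crossProduct (x i) (Pi.single r 1) b *
      ((matV m).mulVec (fun s => algebraMap ℂ R (f i s)) r) := by
    rw [Matrix.mulVec, dotProduct, Fintype.sum_prod_type]
    refine Finset.sum_congr rfl fun r _ => ?_
    rw [Matrix.mulVec, dotProduct, Finset.mul_sum]
    refine Finset.sum_congr rfl fun s _ => ?_
    simp only [Am, matV, Matrix.of_apply]
    ring
  rw [h1, Fin.sum_univ_three]
  fin_cases b <;> simp [cross_apply] <;> ring

variable (f : Fin k → Fin 3 → ℂ) (p : Matrix (Fin ρ) (Fin k × Fin 3) ℂ)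
  (S : Matrix (Fin 3 × Fin 3) (Fin ρ) ℂ)

/-- The square matrix. -/
def Tm (x : Fin k → Fin 3 → R) : Matrix (Fin ρ) (Fin ρ) R :=
  p.map (algebraMap ℂ R) * Am f x * S.map (algebraMap ℂ R)

/-- The vector of the identity matrix. -/
def v0 (R : Type*) [CommRing R] : Fin 3 × Fin 3 → R := vecM (1 : Matrix (Fin 3) (Fin 3) R)

/-- The vector of the transformation. -/
def mv (x : Fin k → Fin 3 → R) : Fin 3 × Fin 3 → R :=
  (Tm f p S x).det • v0 R - (S.map (algebraMap ℂ R)).mulVec ((Tm f p S x).adjugate.mulVec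
    ((p.map (algebraMap ℂ R)).mulVec ((Am f x).mulVec (v0 R))))

theorem p_mv (x : Fin k → Fin 3 → R) :
    (p.map (algebraMap ℂ R)).mulVec ((Am f x).mulVec (mv f p S x)) = 0 := by
  rw [mv, Matrix.mulVec_sub, Matrix.mulVec_sub, Matrix.mulVec_smul, Matrix.mulVec_smul]
  set w := (p.map (algebraMap ℂ R)).mulVec ((Am f x).mulVec (v0 R)) with hw
  have h1 : (p.map (algebraMap ℂ R)).mulVec ((Am f x).mulVec
      ((S.map (algebraMap ℂ R)).mulVec ((Tm f p S x).adjugate.mulVec w))) =
      ((Tm f p S x) * (Tm f p S x).adjugate).mulVec w := by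
    rw [Matrix.mulVec_mulVec, Matrix.mulVec_mulVec, Matrix.mulVec_mulVec, Tm]
  rw [h1, Matrix.mul_adjugate, Matrix.smul_mulVec, Matrix.one_mulVec, sub_self]

variable {R' : Type*} [CommRing R'] [Algebra ℂ R'] (φ : R →ₐ[ℂ] R')

theorem Am_map (x : Fin k → Fin 3 → R) :
    Am f (fun i b => φ (x i b)) = (Am f x).map φ := by
  ext ⟨i, b⟩ ⟨r, s⟩
  simp only [Am, Matrix.of_apply, Matrix.map_apply, map_mul, AlgHom.commutes]
  congr 1
  fin_cases b <;> fin_cases r <;> simp [cross_apply]

theorem alg_map {m n : Type*} (A : Matrix m n ℂ) :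
    (A.map (algebraMap ℂ R)).map φ = A.map (algebraMap ℂ R') := by
  ext i j
  simp

theorem mul_map' {l m n : Type*} [Fintype m] (A : Matrix l m R) (B : Matrix m n R) :
    (A * B).map φ = A.map φ * B.map φ := by
  ext i j
  simp [Matrix.mul_apply]

theorem Tm_map (x : Fin k → Fin 3 → R) :
    Tm f p S (fun i b => φ (x i b)) = (Tm f p S x).map φ := by
  rw [Tm, Tm, Am_map, ← alg_map (φ := φ) (A := p), ← alg_map (φ := φ) (A := S), mul_map', mul_map']

theorem v0_map : (fun rs => φ (v0 R rs)) = v0 R' := by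
  funext rs
  simp only [v0, vecM, Matrix.one_apply]
  split_ifs <;> simp

theorem mv_map (x : Fin k → Fin 3 → R) :
    mv f p S (fun i b => φ (x i b)) = fun rs => φ (mv f p S x rs) := by
  have hmul : ∀ {m n : Type} [Fintype n] (A : Matrix m n R) (w : n → R),
      (A.map φ).mulVec (fun j => φ (w j)) = fun i => φ (A.mulVec w i) := by
    intro m n _ A w
    funext i
    simp [Matrix.mulVec, dotProduct]
  have hdet : (Tm f p S (fun i b => φ (x i b))).det = φ (Tm f p S x).det := by
    rw [Tm_map, AlgHom.map_det]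
    rfl
  have hadj : (Tm f p S (fun i b => φ (x i b))).adjugate = ((Tm f p S x).adjugate).map φ := by
    rw [Tm_map]
    have := (φ : R →+* R').map_adjugate (Tm f p S x)
    exact this.symm
  rw [mv, hdet, hadj, Am_map, ← v0_map φ, hmul, ← alg_map (φ := φ) (A := p), hmul, hmul,
    ← alg_map (φ := φ) (A := S), hmul]
  funext rs
  simp [mv]

end ring

end

end Pool.Agent.H94_lr
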