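import Pool.Agent.H94_lr.Lin

/-!
# The orbit of a configuration and the linear system
-/

namespace Pool.Agent.H94_lr

open H94_gen (parallel)

noncomputable section

variable {k ρ : ℕ}

theorem map_algC {m n : Type*} (A : Matrix m n ℂ) : A.map (algebraMap ℂ ℂ) = A := by
  ext i j
  simp

/-- The auxiliary matrices. -/
theorem exists_aux (f : Fin k → Fin 3 → ℂ) : ∃ (ρ : ℕ) (p : Matrix (Fin ρ) (Fin k × Fin 3) ℂ)
    (S : Matrix (Fin 3 × Fin 3) (Fin ρ) ℂ), Tm f p S f = 1 ∧
      Module.finrank ℂ (LinearMap.ker (Matrix.toLin' (Am f f))) + ρ = 9 := by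
  set L := Matrix.toLin' (Am f f) with hL
  obtain ⟨W, hW⟩ := Submodule.exists_isCompl (LinearMap.ker L)
  set ρ := Module.finrank ℂ W with hρ
  let b : Module.Basis (Fin ρ) ℂ W := Module.finBasis ℂ W
  let S : Matrix (Fin 3 × Fin 3) (Fin ρ) ℂ := Matrix.of fun rs a => (b a : Fin 3 × Fin 3 → ℂ) rs
  have hS : ∀ w : Fin ρ → ℂ, S.mulVec w = ((∑ a, w a • b a : W) : Fin 3 × Fin 3 → ℂ) := by
    intro w
    funext rs
    rw [AddSubmonoidClass.coe_finsetSum, Finset.sum_apply, Matrix.mulVec, dotProduct]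
    refine Finset.sum_congr rfl fun a _ => ?_
    simp only [S, Matrix.of_apply, SetLike.val_smul, Pi.smul_apply, smul_eq_mul]
    ring
  have hinj : LinearMap.ker (Matrix.toLin' (Am f f * S)) = ⊥ := by
    rw [LinearMap.ker_eq_bot']
    intro w hw
    rw [Matrix.toLin'_apply, ← Matrix.mulVec_mulVec] at hw
    have h1 : S.mulVec w ∈ LinearMap.ker L := by
      rw [LinearMap.mem_ker, hL, Matrix.toLin'_apply]
      exact hw
    have h2 : S.mulVec w ∈ W := by
      rw [hS]
      exact Subtype.property _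
    have h3 : S.mulVec w = 0 := by
      have h4 : S.mulVec w ∈ LinearMap.ker L ⊓ W := ⟨h1, h2⟩
      rw [hW.inf_eq_bot] at h4
      exact (Submodule.mem_bot ℂ).mp h4
    rw [hS] at h3
    have h4 : ∑ a, w a • b a = 0 := Subtype.ext h3
    have h5 := Fintype.linearIndependent_iff.mp b.linearIndependent w h4
    funext a
    exact h5 a
  obtain ⟨g, hg⟩ := LinearMap.exists_leftInverse_of_injective _ hinj
  refine ⟨ρ, LinearMap.toMatrix' g, S, ?_, ?_⟩
  · rw [Tm, map_algC, map_algC, Matrix.mul_assoc]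
    have h1 := congrArg LinearMap.toMatrix' hg
    rw [LinearMap.toMatrix'_comp, LinearMap.toMatrix'_toLin', LinearMap.toMatrix'_id] at h1
    exact h1
  · have h1 := Submodule.finrank_add_eq_of_isCompl hW
    rw [h1]
    simp

/-- Vectors with zero cross product. -/
theorem cross_zero {a w : Fin 3 → ℂ} (ha : a ≠ 0) (h : crossProduct a w = 0) :
    ∃ t : ℂ, w = t • a := by
  by_cases hw : w = 0
  · exact ⟨0, by rw [hw, zero_smul]⟩
  · obtain ⟨s, hs, h1⟩ := parallel ha hw h
    exact ⟨s⁻¹, by rw [h1, smul_smul, inv_mul_cancel₀ hs, one_smul]⟩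

/-- The linear system on the orbit. -/
theorem orbit {f x : Fin k → Fin 3 → ℂ} (hf : ∀ i, f i ≠ 0) {M : GL (Fin 3) ℂ} {c : Fin k → ℂ}
    (hx : ∀ i, x i = c i • (M : Matrix (Fin 3) (Fin 3) ℂ).mulVec (f i))
    {p : Matrix (Fin ρ) (Fin k × Fin 3) ℂ} {S : Matrix (Fin 3 × Fin 3) (Fin ρ) ℂ}
    (hρ : Module.finrank ℂ (LinearMap.ker (Matrix.toLin' (Am f f))) + ρ = 9)
    (hT : (Tm f p S x).det ≠ 0) : (Am f x).mulVec (mv f p S x) = 0 := by
  set Lx := Matrix.toLin' (Am f x) with hLx
  set Px := Matrix.toLin' (p * Am f x) with hPx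
  have hTe : Tm f p S x = p * Am f x * S := by rw [Tm, map_algC, map_algC]
  have hTinj : ∀ w : Fin ρ → ℂ, (p * Am f x * S).mulVec w = 0 → w = 0 := by
    intro w hw
    rw [← hTe] at hw
    exact Matrix.eq_zero_of_mulVec_eq_zero hT hw
  have h1 : LinearMap.ker Lx ≤ LinearMap.ker Px := by
    intro m hm
    rw [LinearMap.mem_ker, hLx, Matrix.toLin'_apply] at hm
    rw [LinearMap.mem_ker, hPx, Matrix.toLin'_apply, ← Matrix.mulVec_mulVec, hm,
      Matrix.mulVec_zero]
  -- the kernel on the orbit is large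
  have h2 : Module.finrank ℂ (LinearMap.ker (Matrix.toLin' (Am f f))) ≤
      Module.finrank ℂ (LinearMap.ker Lx) := by
    let Θ : (Fin 3 × Fin 3 → ℂ) →ₗ[ℂ] (Fin 3 × Fin 3 → ℂ) :=
      { toFun := fun m => vecM ((M : Matrix (Fin 3) (Fin 3) ℂ) * matV m)
        map_add' := by
          intro m m'
          funext rs
          simp [vecM, matV, Matrix.mul_apply, mul_add, Finset.sum_add_distrib]
        map_smul' := by
          intro t m
          funext rs
          simp only [vecM, matV, Matrix.mul_apply, Matrix.of_apply, Pi.smul_apply, smul_eq_mul,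
            RingHom.id_apply, Finset.mul_sum]
          exact Finset.sum_congr rfl fun _ _ => by ring }
    have hΘ : ∀ m, matV (Θ m) = (M : Matrix (Fin 3) (Fin 3) ℂ) * matV m := by
      intro m
      ext r s
      rfl
    have hΘi : Function.Injective Θ := by
      rw [← LinearMap.ker_eq_bot, LinearMap.ker_eq_bot']
      intro m hm
      have h3 := hΘ m
      rw [hm] at h3
      have h4 : matV (0 : Fin 3 × Fin 3 → ℂ) = 0 := by ext r s; rfl
      rw [h4] at h3
      have h5 : matV m = 0 := by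
        have h6 : ((M⁻¹ : GL (Fin 3) ℂ) : Matrix (Fin 3) (Fin 3) ℂ) *
            ((M : Matrix (Fin 3) (Fin 3) ℂ) * matV m) = 0 := by rw [← h3, mul_zero]
        rwa [← Matrix.mul_assoc, ← Units.val_mul, inv_mul_cancel, Units.val_one,
          Matrix.one_mul] at h6
      funext rs
      exact congrFun (congrFun h5 rs.1) rs.2
    have hmap : Submodule.map Θ (LinearMap.ker (Matrix.toLin' (Am f f))) ≤
        LinearMap.ker Lx := by
      rintro _ ⟨m, hm, rfl⟩
      rw [SetLike.mem_coe, LinearMap.mem_ker, Matrix.toLin'_apply] at hm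
      rw [LinearMap.mem_ker, hLx, Matrix.toLin'_apply]
      funext ib
      obtain ⟨i, b⟩ := ib
      have hm' : crossProduct (f i) ((matV m).mulVec (f i)) = 0 := by
        funext b
        have h3 := congrFun hm (i, b)
        rw [Am_mulVec] at h3
        exact h3
      obtain ⟨t, ht⟩ := cross_zero (hf i) hm'
      rw [Am_mulVec, hΘ, hx i]
      have h3 : ((M : Matrix (Fin 3) (Fin 3) ℂ) * matV m).mulVec
          (fun s => algebraMap ℂ ℂ (f i s)) =
          t • (M : Matrix (Fin 3) (Fin 3) ℂ).mulVec (f i) := by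
        have h4 : (fun s => algebraMap ℂ ℂ (f i s)) = f i := rfl
        rw [h4, ← Matrix.mulVec_mulVec, ht, Matrix.mulVec_smul]
      rw [h3, LinearMap.map_smul, LinearMap.map_smul₂, cross_self]
      simp
    calc Module.finrank ℂ (LinearMap.ker (Matrix.toLin' (Am f f)))
        = Module.finrank ℂ (Submodule.map Θ (LinearMap.ker (Matrix.toLin' (Am f f)))) :=
          (Submodule.equivMapOfInjective Θ hΘi _).finrank_eq
      _ ≤ Module.finrank ℂ (LinearMap.ker Lx) := Submodule.finrank_mono hmap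
  have h3 : Module.finrank ℂ (LinearMap.ker Px) + ρ ≤ 9 := by
    have hSi : Function.Injective (Matrix.toLin' S) := by
      rw [← LinearMap.ker_eq_bot, LinearMap.ker_eq_bot']
      intro w hw
      rw [Matrix.toLin'_apply] at hw
      apply hTinj
      rw [← Matrix.mulVec_mulVec, hw, Matrix.mulVec_zero]
    have h4 : Module.finrank ℂ (LinearMap.range (Matrix.toLin' S)) = ρ := by
      rw [LinearMap.finrank_range_of_inj hSi]
      simp
    have h5 : Disjoint (LinearMap.ker Px) (LinearMap.range (Matrix.toLin' S)) := by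
      rw [Submodule.disjoint_def]
      rintro _ hm ⟨w, rfl⟩
      rw [LinearMap.mem_ker, hPx, Matrix.toLin'_apply, Matrix.toLin'_apply,
        Matrix.mulVec_mulVec] at hm
      rw [hTinj w hm, map_zero]
    have h6 := Submodule.finrank_add_finrank_le_of_disjoint h5
    rw [h4] at h6
    refine h6.trans (le_of_eq ?_)
    simp
  have h4 : LinearMap.ker Lx = LinearMap.ker Px :=
    Submodule.eq_of_le_of_finrank_le h1 (by omega)
  have h5 : mv f p S x ∈ LinearMap.ker Px := by
    rw [LinearMap.mem_ker, hPx, Matrix.toLin'_apply, ← Matrix.mulVec_mulVec]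
    have h6 := p_mv f p S x
    rwa [map_algC] at h6
  rw [← h4, LinearMap.mem_ker, hLx, Matrix.toLin'_apply] at h5
  exact h5

end

end Pool.Agent.H94_lr
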