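import Pool.Agent.H94_lr.UltraC

/-!
# Complex points near a formal arc
-/

namespace Pool.Agent.H94_lr

open PowerSeries

noncomputable section

/-- The projection as a homomorphism of algebras. -/
def mkA : SQ →ₐ[ℂ] UC :=
  { UC.mk with commutes' := fun _ => rfl }

theorem mkA_apply (x : SQ) : mkA x = UC.mk x := rfl

variable {σ : Type*}

/-- If a polynomial does not vanish on a formal arc in an algebraic set, then it does not vanish
on all complex points of the algebraic set near the origin of the arc. -/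
theorem exists_point [Finite σ] (γ : σ → ℂ⟦X⟧) (D : Finset (MvPolynomial σ ℂ))
    (F : MvPolynomial σ ℂ) (hD : ∀ P ∈ D, MvPolynomial.aeval γ P = 0)
    (hF : MvPolynomial.aeval γ F ≠ 0) {ε : ℝ} (hε : 0 < ε) :
    ∃ x : σ → ℂ, (∀ i, ‖x i - constantCoeff (γ i)‖ < ε) ∧
      (∀ P ∈ D, MvPolynomial.aeval x P = 0) ∧ MvPolynomial.aeval x F ≠ 0 := by
  classical
  have := Fintype.ofFinite σ
  obtain ⟨e0, u, hu, hFe⟩ := exists_order hF
  set s : Finset ℂ⟦X⟧ := Finset.univ.image γ with hs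
  obtain ⟨φ, hφ⟩ := Spz.fg vd s (e0 + 1)
  let γA : σ → Algebra.adjoin ℂ (s : Set ℂ⟦X⟧) := fun i =>
    ⟨γ i, Algebra.subset_adjoin (by rw [hs]; simp)⟩
  have hval : ∀ P : MvPolynomial σ ℂ, ((MvPolynomial.aeval γA P : Algebra.adjoin ℂ (s : Set ℂ⟦X⟧)) : ℂ⟦X⟧) =
      MvPolynomial.aeval γ P := by
    intro P
    have h1 := MvPolynomial.comp_aeval_apply (f := γA) (Algebra.adjoin ℂ (s : Set ℂ⟦X⟧)).val P
    exact h1
  have hφP : ∀ P : MvPolynomial σ ℂ, φ (MvPolynomial.aeval γA P) = MvPolynomial.aeval (fun i => φ (γA i)) P :=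
    fun P => MvPolynomial.comp_aeval_apply (f := γA) φ P
  choose Y hY using fun i => UC.mk_surjective (φ (γA i))
  have hmk : ∀ P : MvPolynomial σ ℂ, UC.mk (MvPolynomial.aeval Y P) = MvPolynomial.aeval (fun i => φ (γA i)) P := by
    intro P
    have h1 := MvPolynomial.comp_aeval_apply (f := Y) mkA P
    have h2 : (fun i => mkA (Y i)) = fun i => φ (γA i) := funext hY
    rw [h2] at h1
    exact h1
  have hcomp : ∀ (P : MvPolynomial σ ℂ) (p : ℕ), (MvPolynomial.aeval Y P : SQ) p =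
      MvPolynomial.aeval (fun i => Y i p) P := by
    intro P p
    exact MvPolynomial.comp_aeval_apply (f := Y) (Pi.evalAlgHom ℂ (fun _ : ℕ => ℂ) p) P
  -- the conditions
  have h1 : ∀ P ∈ D, ∀ᶠ p in (UN : Filter ℕ), MvPolynomial.aeval (fun i => Y i p) P = 0 := by
    intro P hP
    have h2 : UC.mk (MvPolynomial.aeval Y P) = 0 := by
      rw [hmk, ← hφP]
      have h3 : MvPolynomial.aeval γA P = 0 := Subtype.ext (by rw [hval, hD P hP]; rfl)
      rw [h3, map_zero]
    rw [UC.mk_eq_zero] at h2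
    filter_upwards [h2] with p hp
    rw [← hcomp]
    exact hp
  have h2 : ∀ᶠ p in (UN : Filter ℕ), MvPolynomial.aeval (fun i => Y i p) F ≠ 0 := by
    have h3 : UC.mk (MvPolynomial.aeval Y F) ≠ 0 := by
      rw [hmk, ← hφP]
      intro h0
      have h4 := hφ (MvPolynomial.aeval γA F)
      rw [hval, hFe] at h4
      have h5 := Rel.val vd hu h4 (Nat.lt_succ_self e0)
      rw [h0, map_zero] at h5
      exact pow_ne_zero _ vd.pos.ne' h5.symm
    rw [Ne, UC.mk_eq_zero] at h3
    have h4 := Ultrafilter.eventually_not.mpr h3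
    filter_upwards [h4] with p hp
    rw [← hcomp]
    exact hp
  have h3 : ∀ i, ∀ᶠ p in (UN : Filter ℕ), ‖Y i p - constantCoeff (γ i)‖ < ε := by
    intro i
    have h4 := Rel.mono vd (by omega : 1 ≤ e0 + 1) (hφ (γA i))
    have h5 : ev (UC.mk tauS) 1 (γ i) = UC.mk (cstS (constantCoeff (γ i))) := by
      rw [ev, trunc_one_left, Polynomial.aeval_C, coeff_zero_eq_constantCoeff_apply]
      rfl
    have h6 : finS.valuation (UC.mk (Y i - cstS (constantCoeff (γ i)))) ≤
        finS.valuation (UC.mk tauS) := by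
      rw [map_sub, hY, ← h5]
      have h7 : finS.valuation (φ (γA i) - ev (UC.mk tauS) 1 (γ i)) ≤
        finS.valuation (UC.mk tauS) ^ 1 := h4
      rwa [pow_one] at h7
    filter_upwards [small_of_le h6 hε] with p hp
    exact hp
  have h4 : ∀ᶠ p in (UN : Filter ℕ), ∀ P ∈ D, MvPolynomial.aeval (fun i => Y i p) P = 0 :=
    (Filter.eventually_all_finset D).mpr h1
  have h5 : ∀ᶠ p in (UN : Filter ℕ), ∀ i, ‖Y i p - constantCoeff (γ i)‖ < ε :=
    Filter.eventually_all.mpr h3
  obtain ⟨p, hp1, hp2, hp3⟩ := (h5.and (h4.and h2)).exists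
  exact ⟨fun i => Y i p, hp1, hp2, hp3⟩

end

end Pool.Agent.H94_lr
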