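import Pool.Agent.H94_hk.Stmt

/-!
# Rigid configurations
-/

namespace Pool.Agent.H94_hk.Rig

/-- The lines of the configuration with indices in `S` have a common point. -/
def Config.Concurrent {k : ℕ} (𝒞 : Config k) (S : Set (Fin k)) : Prop :=
  ∃ p : Fin 3 → ℂ, p ≠ 0 ∧ ∀ i ∈ S, 𝒞.form i ⬝ᵥ p = 0

/-- A configuration `𝒞` is rigid if every configuration `𝒟` near `𝒞` with the same sets of
concurrent lines is the image of `𝒞` under a projective transformation: the linear forms of `𝒟`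
are obtained from those of `𝒞` by an invertible matrix `M` and rescaling. -/
def Config.Rigid {k : ℕ} (𝒞 : Config k) : Prop :=
  ∃ ε : ℝ, 0 < ε ∧ ∀ 𝒟 : Config k, (∀ i b, ‖𝒟.form i b - 𝒞.form i b‖ < ε) →
    (∀ S : Set (Fin k), 𝒟.Concurrent S ↔ 𝒞.Concurrent S) →
    ∃ (M : GL (Fin 3) ℂ) (c : Fin k → ℂ), ∀ i, c i ≠ 0 ∧
      𝒟.form i = c i • (M : Matrix (Fin 3) (Fin 3) ℂ).mulVec (𝒞.form i)

end Pool.Agent.H94_hk.Rig
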