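import Pool.Agent.H94_lr.Orb
import Pool.Agent.H94_lr.StmtL
import Pool.Agent.H94_fr.Final

/-!
# Rigid configurations are rigid for formal arcs
-/

namespace Pool.Agent.H94_lr

open PowerSeries
open H94_hk.Rig (Config)

noncomputable section

variable {k : ℕ}

/-- The determinant of three forms. -/
def d3 {R : Type*} [CommRing R] (x : Fin k → Fin 3 → R) (i j l : Fin k) : R :=
  Matrix.det (Matrix.of ![x i, x j, x l])

theorem d3_map {R R' : Type*} [CommRing R] [CommRing R'] (φ : R →+* R')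
    (x : Fin k → Fin 3 → R) (i j l : Fin k) :
    d3 (fun i b => φ (x i b)) i j l = φ (d3 x i j l) := by
  simp [d3, Matrix.det_fin_three]

theorem d3_cross (x : Fin k → Fin 3 → ℂ) (i j l : Fin k) :
    d3 x i j l = x l ⬝ᵥ crossProduct (x i) (x j) := by
  simp only [d3, Matrix.det_fin_three, dotProduct, Fin.sum_univ_three, cross_apply]
  simp
  ring

theorem d3_zero_of {x : Fin k → Fin 3 → ℂ} {p : Fin 3 → ℂ} (hp : p ≠ 0) {i j l : Fin k}
    (hi : x i ⬝ᵥ p = 0) (hj : x j ⬝ᵥ p = 0) (hl : x l ⬝ᵥ p = 0) : d3 x i j l = 0 := by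
  apply Matrix.exists_mulVec_eq_zero_iff.mp
  refine ⟨p, hp, ?_⟩
  funext b
  fin_cases b
  · exact hi
  · exact hj
  · exact hl

theorem exists_d3 (𝒞 : Config k) {i j : Fin k} (hij : i ≠ j) : ∃ l, d3 𝒞.form i j l ≠ 0 := by
  obtain ⟨l, hl⟩ := 𝒞.nonconcurrent _ (H94_gen.cross_ne 𝒞.distinct hij)
  exact ⟨l, by rw [d3_cross]; exact hl⟩

theorem exists_ne (𝒞 : Config k) (i : Fin k) : ∃ j, i ≠ j := by
  have hk := H94_hk.three_le 𝒞
  haveI : Nontrivial (Fin k) := Fin.nontrivial_iff_two_le.mpr (by omega)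
  obtain ⟨j, hj⟩ := _root_.exists_ne i
  exact ⟨j, hj.symm⟩

theorem concurrent_iff (𝒞 : Config k) (S : Set (Fin k)) :
    𝒞.Concurrent S ↔ ∀ i ∈ S, ∀ j ∈ S, ∀ l ∈ S, d3 𝒞.form i j l = 0 := by
  constructor
  · rintro ⟨p, hp, h⟩ i hi j hj l hl
    exact d3_zero_of hp (h i hi) (h j hj) (h l hl)
  · intro h
    by_cases h2 : ∃ i ∈ S, ∃ j ∈ S, i ≠ j
    · obtain ⟨i, hi, j, hj, hij⟩ := h2
      refine ⟨_, H94_gen.cross_ne 𝒞.distinct hij, fun l hl => ?_⟩
      rw [← d3_cross]
      exact h i hi j hj l hl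
    · push Not at h2
      by_cases h1 : S.Nonempty
      · obtain ⟨i, hi⟩ := h1
        obtain ⟨j, hij⟩ := exists_ne 𝒞 i
        refine ⟨_, H94_gen.cross_ne 𝒞.distinct hij, fun l hl => ?_⟩
        rw [← h2 i hi l hl]
        exact dot_self_cross _ _
      · rw [Set.not_nonempty_iff_eq_empty] at h1
        subst h1
        refine ⟨Pi.single 0 1, ?_, fun i hi => absurd hi (Set.notMem_empty i)⟩
        intro h0
        have := congrFun h0 0
        simp at this

theorem d3_zero_of_dep {x : Fin k → Fin 3 → ℂ} {i j : Fin k} (l : Fin k) {s t : ℂ}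
    (h : s • x i + t • x j = 0) (hst : ¬ (s = 0 ∧ t = 0)) : d3 x i j l = 0 := by
  apply Matrix.exists_vecMul_eq_zero_iff.mp
  refine ⟨![s, t, 0], ?_, ?_⟩
  · intro h0
    exact hst ⟨congrFun h0 0, congrFun h0 1⟩
  · funext b
    have h1 := congrFun h b
    simp only [Pi.add_apply, Pi.smul_apply, smul_eq_mul, Pi.zero_apply] at h1
    simp only [Matrix.vecMul, dotProduct, Fin.sum_univ_three, Matrix.of_apply,
      Matrix.cons_val_zero, Matrix.cons_val_one, Matrix.cons_val_two, Matrix.head_cons,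
      Matrix.tail_cons, Pi.zero_apply]
    linear_combination h1

/-- A configuration with the same determinants. -/
def mkCfg (𝒞 : Config k) (x : Fin k → Fin 3 → ℂ)
    (hx : ∀ i j l, d3 x i j l = 0 ↔ d3 𝒞.form i j l = 0) : Config k where
  form := x
  distinct i j hij := by
    rw [LinearIndependent.pair_iff]
    intro s t h
    by_contra hst
    obtain ⟨l, hl⟩ := exists_d3 𝒞 hij
    exact hl ((hx i j l).mp (d3_zero_of_dep l h hst))
  nonconcurrent p hp := by
    by_contra hcon
    push Not at hcon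
    have hk := H94_hk.three_le 𝒞
    obtain ⟨j, hij⟩ := exists_ne 𝒞 ⟨0, by omega⟩
    obtain ⟨l, hl⟩ := exists_d3 𝒞 hij
    exact hl ((hx _ _ _).mp (d3_zero_of hp (hcon _) (hcon _) (hcon _)))

theorem cross_eq {R : Type*} [CommRing R] {a w : Fin 3 → R} (h : crossProduct a w = 0)
    (s t : Fin 3) : a s * w t = a t * w s := by
  have h0 := congrFun h 0
  have h1 := congrFun h 1
  have h2 := congrFun h 2
  simp only [cross_apply, Matrix.cons_val_zero, Matrix.cons_val_one, Matrix.cons_val_two,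
    Matrix.head_cons, Matrix.tail_cons, Pi.zero_apply] at h0 h1 h2
  fin_cases s <;> fin_cases t
  · rfl
  · change a 0 * w 1 = a 1 * w 0
    linear_combination h2
  · change a 0 * w 2 = a 2 * w 0
    linear_combination -h1
  · change a 1 * w 0 = a 0 * w 1
    linear_combination -h2
  · rfl
  · change a 1 * w 2 = a 2 * w 1
    linear_combination h0
  · change a 2 * w 0 = a 0 * w 2
    linear_combination h1
  · change a 2 * w 1 = a 1 * w 2
    linear_combination -h0
  · rfl

/-- The constant coefficient as a homomorphism of algebras. -/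
def cc : ℂ⟦X⟧ →ₐ[ℂ] ℂ :=
  { constantCoeff with
    commutes' := fun c => by
      change constantCoeff (C c) = c
      exact constantCoeff_C c }

theorem cc_apply (a : ℂ⟦X⟧) : cc a = constantCoeff a := rfl

/-- Rigid configurations are rigid for formal arcs. -/
theorem rigid_arc {𝒞 : Config k} (h : 𝒞.Rigid) : 𝒞.ArcRigid := by
  classical
  intro g hg0 hgd
  obtain ⟨ε, hε, hrig⟩ := h
  have hf : ∀ i, 𝒞.form i ≠ 0 := by
    intro i h0
    obtain ⟨j, hij⟩ := exists_ne 𝒞 i
    have h1 := H94_gen.cross_ne 𝒞.distinct hij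
    rw [h0] at h1
    apply h1
    simp
  obtain ⟨ρ, p, S, hT, hρ⟩ := exists_aux 𝒞.form
  have hg0' : (fun i b => cc (g i b)) = 𝒞.form := by
    funext i b
    exact hg0 i b
  have hT0 : (Tm 𝒞.form p S g).det ≠ 0 := by
    intro h0
    have h1 := Tm_map (φ := cc) 𝒞.form p S g
    rw [hg0', hT] at h1
    have h2 := cc.map_det (Tm 𝒞.form p S g)
    rw [h0, map_zero] at h2
    have h3 : cc.mapMatrix (Tm 𝒞.form p S g) = (Tm 𝒞.form p S g).map cc := rfl
    rw [h3, ← h1, Matrix.det_one] at h2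
    exact zero_ne_one h2
  have key : ∀ ib, (Am 𝒞.form g).mulVec (mv 𝒞.form p S g) ib = 0 := by
    intro ib
    by_contra hne
    let γ : Fin k × Fin 3 → ℂ⟦X⟧ := fun ib => g ib.1 ib.2
    let ξ : Fin k → Fin 3 → MvPolynomial (Fin k × Fin 3) ℂ := fun i b => MvPolynomial.X (i, b)
    have hev : ∀ {R : Type} [CommRing R] [Algebra ℂ R] (x : Fin k × Fin 3 → R),
        (fun i b => MvPolynomial.aeval x (ξ i b)) = fun i b => x (i, b) := by
      intro R _ _ x
      funext i b
      exact MvPolynomial.aeval_X _ _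
    have hd3 : ∀ {R : Type} [CommRing R] [Algebra ℂ R] (x : Fin k × Fin 3 → R) (i j l : Fin k),
        MvPolynomial.aeval x (d3 ξ i j l) = d3 (fun i b => x (i, b)) i j l := by
      intro R _ _ x i j l
      rw [← hev x]
      exact (d3_map (MvPolynomial.aeval x : MvPolynomial (Fin k × Fin 3) ℂ →ₐ[ℂ] R).toRingHom
        ξ i j l).symm
    have hdT : ∀ {R : Type} [CommRing R] [Algebra ℂ R] (x : Fin k × Fin 3 → R),
        MvPolynomial.aeval x (Tm 𝒞.form p S ξ).det = (Tm 𝒞.form p S fun i b => x (i, b)).det := by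
      intro R _ _ x
      rw [← hev x, Tm_map, AlgHom.map_det]
      rfl
    have hAm : ∀ {R : Type} [CommRing R] [Algebra ℂ R] (x : Fin k × Fin 3 → R),
        MvPolynomial.aeval x ((Am 𝒞.form ξ).mulVec (mv 𝒞.form p S ξ) ib) =
        (Am 𝒞.form fun i b => x (i, b)).mulVec (mv 𝒞.form p S fun i b => x (i, b)) ib := by
      intro R _ _ x
      rw [← hev x, mv_map, Am_map]
      simp [Matrix.mulVec, dotProduct]
    let Tr : Finset (Fin k × Fin k × Fin k) := Finset.univ.filter fun t =>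
      d3 𝒞.form t.1 t.2.1 t.2.2 = 0
    let Nt : Finset (Fin k × Fin k × Fin k) := Finset.univ.filter fun t =>
      d3 𝒞.form t.1 t.2.1 t.2.2 ≠ 0
    have hdg : ∀ i j l, constantCoeff (d3 g i j l) = d3 𝒞.form i j l := by
      intro i j l
      rw [← d3_map]
      congr 1
    obtain ⟨x, hx1, hx2, hx3⟩ := exists_point γ (Tr.image fun t => d3 ξ t.1 t.2.1 t.2.2)
      ((Am 𝒞.form ξ).mulVec (mv 𝒞.form p S ξ) ib * (Tm 𝒞.form p S ξ).det *
        ∏ t ∈ Nt, d3 ξ t.1 t.2.1 t.2.2) (by
        intro P hP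
        obtain ⟨t, ht, rfl⟩ := Finset.mem_image.mp hP
        rw [hd3]
        exact hgd _ _ _ (Finset.mem_filter.mp ht).2) (by
        rw [map_mul, map_mul, map_prod, hAm, hdT]
        refine mul_ne_zero (mul_ne_zero hne hT0) (Finset.prod_ne_zero_iff.mpr fun t ht => ?_)
        rw [hd3]
        intro h0
        apply (Finset.mem_filter.mp ht).2
        rw [← hdg]
        have h1 : d3 g t.1 t.2.1 t.2.2 = 0 := h0
        rw [h1, map_zero]) hε
    rw [map_mul, map_mul, map_prod, hAm, hdT] at hx3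
    have hx4 := left_ne_zero_of_mul hx3
    have hx5 := right_ne_zero_of_mul hx3
    have hx6 := left_ne_zero_of_mul hx4
    have hx7 := right_ne_zero_of_mul hx4
    have hdet : ∀ i j l, d3 (fun i b => x (i, b)) i j l = 0 ↔ d3 𝒞.form i j l = 0 := by
      intro i j l
      constructor
      · intro h1
        by_contra h2
        have h3 := Finset.prod_ne_zero_iff.mp hx5 (i, j, l)
          (Finset.mem_filter.mpr ⟨Finset.mem_univ _, h2⟩)
        rw [hd3] at h3
        exact h3 h1
      · intro h1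
        rw [← hd3]
        exact hx2 _ (Finset.mem_image.mpr ⟨(i, j, l),
          Finset.mem_filter.mpr ⟨Finset.mem_univ _, h1⟩, rfl⟩)
    obtain ⟨M, c, hMc⟩ := hrig (mkCfg 𝒞 _ hdet) (fun i b => by
      have h1 := hx1 (i, b)
      have h2 : constantCoeff (γ (i, b)) = 𝒞.form i b := hg0 i b
      rw [h2] at h1
      exact h1) (fun S => by
      rw [concurrent_iff, concurrent_iff]
      constructor
      · intro h1 i hi j hj l hl
        exact (hdet i j l).mp (h1 i hi j hj l hl)
      · intro h1 i hi j hj l hl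
        exact (hdet i j l).mpr (h1 i hi j hj l hl))
    have h1 := orbit hf (fun i => (hMc i).2) hρ hx7
    exact hx6 (congrFun h1 ib)
  -- the matrix
  set N : Matrix (Fin 3) (Fin 3) ℂ⟦X⟧ := matV (mv 𝒞.form p S g) with hN
  have hv0 : (Am 𝒞.form 𝒞.form).mulVec (v0 ℂ) = 0 := by
    funext ib
    obtain ⟨i, b⟩ := ib
    rw [Am_mulVec]
    have h1 : matV (v0 ℂ) = 1 := by
      ext r s
      rfl
    rw [h1, Matrix.one_mulVec]
    have h2 : (fun s => algebraMap ℂ ℂ (𝒞.form i s)) = 𝒞.form i := rfl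
    rw [h2, cross_self]
    rfl
  have hmf : mv 𝒞.form p S 𝒞.form = v0 ℂ := by
    rw [mv, hT, hv0]
    simp
  have hNc : ∀ r s, constantCoeff (N r s) = (1 : Matrix (Fin 3) (Fin 3) ℂ) r s := by
    intro r s
    have h1 := mv_map (φ := cc) 𝒞.form p S g
    rw [hg0', hmf] at h1
    have h2 := congrFun h1 (r, s)
    exact h2.symm
  have hNd : IsUnit N.det := by
    rw [PowerSeries.isUnit_iff_constantCoeff, RingHom.map_det]
    have h1 : (constantCoeff (R := ℂ)).mapMatrix N = 1 := by
      ext r s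
      exact hNc r s
    rw [h1, Matrix.det_one]
    exact isUnit_one
  have hcross : ∀ i, crossProduct (g i) (N.mulVec fun b => C (𝒞.form i b)) = 0 := by
    intro i
    funext b
    have h1 := key (i, b)
    rw [Am_mulVec] at h1
    exact h1
  have hb : ∀ i, ∃ b, 𝒞.form i b ≠ 0 := by
    intro i
    by_contra hcon
    push Not at hcon
    exact hf i (funext hcon)
  choose b hb using hb
  refine ⟨Matrix.GeneralLinearGroup.mk'' N hNd, fun i => g i (b i) *
    (N.mulVec (fun b => C (𝒞.form i b)) (b i))⁻¹, fun i => ?_⟩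
  have hwc : constantCoeff (N.mulVec (fun b => C (𝒞.form i b)) (b i)) = 𝒞.form i (b i) := by
    simp only [Matrix.mulVec, dotProduct, map_sum, map_mul, constantCoeff_C, hNc]
    simp [Matrix.one_apply]
  have hw0 : constantCoeff (N.mulVec (fun b => C (𝒞.form i b)) (b i)) ≠ 0 := by
    rw [hwc]; exact hb i
  funext a
  have h1 := cross_eq (hcross i) a (b i)
  have h2 := PowerSeries.mul_inv_cancel _ hw0
  change g i a = g i (b i) * (N.mulVec (fun b => C (𝒞.form i b)) (b i))⁻¹ *
    N.mulVec (fun b => C (𝒞.form i b)) a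
  linear_combination (-(g i a)) * h2 + (N.mulVec (fun b => C (𝒞.form i b)) (b i))⁻¹ * h1

end

end Pool.Agent.H94_lr
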