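import Pool.Agent.H94_lr.Ext

/-!
# The ultrapower of the complex numbers
-/

namespace Pool.Agent.H94_lr

noncomputable section

/-- Sequences of complex numbers. -/
abbrev SQ : Type := ℕ → ℂ

/-- The ultrafilter. -/
def UN : Ultrafilter ℕ := Filter.hyperfilter ℕ

/-- The ideal of the ultrapower. -/
def IN : Ideal SQ where
  carrier := {x | ∀ᶠ p in (UN : Filter ℕ), x p = 0}
  add_mem' := by
    intro x y hx hy
    filter_upwards [hx, hy] with p h1 h2
    rw [Pi.add_apply, h1, h2, add_zero]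
  zero_mem' := Filter.Eventually.of_forall fun p => rfl
  smul_mem' := by
    intro c x hx
    filter_upwards [hx] with p h1
    rw [smul_eq_mul, Pi.mul_apply, h1, mul_zero]

theorem mem_IN {x : SQ} : x ∈ IN ↔ ∀ᶠ p in (UN : Filter ℕ), x p = 0 := Iff.rfl

instance IN_max : IN.IsMaximal := by
  rw [Ideal.isMaximal_iff]
  constructor
  · intro h
    rw [mem_IN] at h
    have h1 : ∀ᶠ p in (UN : Filter ℕ), False := by
      filter_upwards [h] with p hp
      exact one_ne_zero hp
    exact (Filter.eventually_false_iff_eq_bot.mp h1 |> UN.neBot.ne)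
  · intro J x hJ hx hxJ
    have h1 : ∀ᶠ p in (UN : Filter ℕ), x p ≠ 0 := by
      rw [mem_IN] at hx
      exact Ultrafilter.eventually_not.mpr hx
    have h2 : (1 - x⁻¹ * x : SQ) ∈ IN := by
      rw [mem_IN]
      filter_upwards [h1] with p hp
      rw [Pi.sub_apply, Pi.mul_apply, Pi.inv_apply, inv_mul_cancel₀ hp]
      exact sub_self 1
    have h3 := J.add_mem (hJ h2) (J.mul_mem_left x⁻¹ hxJ)
    rwa [sub_add_cancel] at h3

/-- The ultrapower. -/
def UC : Type := SQ ⧸ IN

instance : Field UC := Ideal.Quotient.field IN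

/-- The projection. -/
def UC.mk : SQ →+* UC := Ideal.Quotient.mk IN

theorem UC.mk_surjective : Function.Surjective UC.mk := Ideal.Quotient.mk_surjective

theorem UC.mk_eq_zero {x : SQ} : UC.mk x = 0 ↔ ∀ᶠ p in (UN : Filter ℕ), x p = 0 :=
  Ideal.Quotient.eq_zero_iff_mem

/-- Constant sequences. -/
def cstS : ℂ →+* SQ := Pi.constRingHom ℕ ℂ

theorem cstS_apply (c : ℂ) (p : ℕ) : cstS c p = c := rfl

instance : Algebra ℂ UC := (UC.mk.comp cstS).toAlgebra

theorem UC.algebraMap_eq (c : ℂ) : algebraMap ℂ UC c = UC.mk (cstS c) := rfl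

instance : IsAlgClosed UC := by
  refine IsAlgClosed.of_exists_root _ fun f hf hirr => ?_
  have hdeg : 0 < f.natDegree := hirr.natDegree_pos
  choose c hc using fun j => UC.mk_surjective (f.coeff j)
  have h1 : ∀ p : ℕ, ∃ x : ℂ,
      x ^ f.natDegree + ∑ j ∈ Finset.range f.natDegree, c j p * x ^ j = 0 := by
    intro p
    set g : Polynomial ℂ := Polynomial.X ^ f.natDegree +
      ∑ j ∈ Finset.range f.natDegree, Polynomial.C (c j p) * Polynomial.X ^ j with hg
    have hgd : g.degree = f.natDegree := by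
      have h2 : (∑ j ∈ Finset.range f.natDegree,
          Polynomial.C (c j p) * Polynomial.X ^ j : Polynomial ℂ).degree <
          (Polynomial.X ^ f.natDegree : Polynomial ℂ).degree := by
        rw [Polynomial.degree_X_pow]
        refine (Polynomial.degree_sum_le _ _).trans_lt ?_
        rw [Finset.sup_lt_iff (by exact WithBot.bot_lt_coe _)]
        intro j hj
        refine (Polynomial.degree_C_mul_X_pow_le j _).trans_lt ?_
        exact_mod_cast Finset.mem_range.mp hj
      rw [hg, Polynomial.degree_add_eq_left_of_degree_lt h2, Polynomial.degree_X_pow]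
    obtain ⟨x, hx⟩ := IsAlgClosed.exists_root g (by
      rw [hgd]
      exact_mod_cast hdeg.ne')
    refine ⟨x, ?_⟩
    rw [Polynomial.IsRoot, hg] at hx
    simpa [Polynomial.eval_finsetSum] using hx
  choose x hx using h1
  refine ⟨UC.mk x, ?_⟩
  rw [Polynomial.eval_eq_sum_range, Finset.sum_range_succ, hf.coeff_natDegree, one_mul, add_comm]
  have h2 : UC.mk (x ^ f.natDegree + ∑ j ∈ Finset.range f.natDegree, c j * x ^ j) = 0 := by
    have : x ^ f.natDegree + ∑ j ∈ Finset.range f.natDegree, c j * x ^ j = 0 := by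
      funext p
      have := hx p
      simpa [Finset.sum_apply] using this
    rw [this, map_zero]
  rw [map_add, map_pow, map_sum] at h2
  rw [← h2]
  congr 1
  refine Finset.sum_congr rfl fun j _ => ?_
  rw [map_mul, map_pow, hc]

/-- The ring of finite elements. -/
def finS : ValuationSubring UC where
  carrier := {a | ∃ x : SQ, UC.mk x = a ∧ ∃ C : ℝ, ∀ᶠ p in (UN : Filter ℕ), ‖x p‖ ≤ C}
  mul_mem' := by
    rintro _ _ ⟨x, rfl, C, hx⟩ ⟨y, rfl, D, hy⟩
    refine ⟨x * y, map_mul _ _ _, |C| * |D|, ?_⟩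
    filter_upwards [hx, hy] with p h1 h2
    rw [Pi.mul_apply, norm_mul]
    exact mul_le_mul (h1.trans (le_abs_self C)) (h2.trans (le_abs_self D)) (norm_nonneg _)
      (abs_nonneg _)
  one_mem' := ⟨1, map_one _, 1, Filter.Eventually.of_forall fun p => by simp⟩
  add_mem' := by
    rintro _ _ ⟨x, rfl, C, hx⟩ ⟨y, rfl, D, hy⟩
    refine ⟨x + y, map_add _ _ _, C + D, ?_⟩
    filter_upwards [hx, hy] with p h1 h2
    rw [Pi.add_apply]
    exact (norm_add_le _ _).trans (add_le_add h1 h2)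
  zero_mem' := ⟨0, map_zero _, 0, Filter.Eventually.of_forall fun p => by simp⟩
  neg_mem' := by
    rintro _ ⟨x, rfl, C, hx⟩
    refine ⟨-x, map_neg _ _, C, ?_⟩
    filter_upwards [hx] with p h1
    rw [Pi.neg_apply, norm_neg]
    exact h1
  mem_or_inv_mem' := by
    intro a
    obtain ⟨x, rfl⟩ := UC.mk_surjective a
    by_cases h : ∀ᶠ p in (UN : Filter ℕ), ‖x p‖ ≤ 1
    · exact Or.inl ⟨x, rfl, 1, h⟩
    · right
      have h1 : ∀ᶠ p in (UN : Filter ℕ), ¬ ‖x p‖ ≤ 1 := Ultrafilter.eventually_not.mpr h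
      refine ⟨x⁻¹, ?_, 1, ?_⟩
      · apply eq_inv_of_mul_eq_one_left
        rw [← map_mul, ← map_one UC.mk, ← sub_eq_zero, ← map_sub, UC.mk_eq_zero]
        filter_upwards [h1] with p hp
        have h2 : x p ≠ 0 := by
          intro h0
          apply hp
          rw [h0, norm_zero]
          exact zero_le_one
        rw [Pi.sub_apply, Pi.mul_apply, Pi.inv_apply, inv_mul_cancel₀ h2]
        exact sub_self 1
      · filter_upwards [h1] with p hp
        rw [Pi.inv_apply, norm_inv]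
        exact inv_le_one_of_one_le₀ (not_le.mp hp).le

theorem mem_finS {a : UC} : a ∈ finS ↔ ∃ x : SQ, UC.mk x = a ∧
    ∃ C : ℝ, ∀ᶠ p in (UN : Filter ℕ), ‖x p‖ ≤ C := Iff.rfl

/-- An infinitesimal sequence. -/
def tauS : SQ := fun p => ((p : ℂ) + 1)⁻¹

theorem eventually_ge (n : ℕ) : ∀ᶠ p in (UN : Filter ℕ), n ≤ p := by
  have h3 : {p : ℕ | p < n}.Finite := Set.finite_Iio n
  have h5 : {p : ℕ | p < n}ᶜ ∈ (UN : Filter ℕ) := Filter.compl_mem_hyperfilter_of_finite h3
  filter_upwards [h5] with p hp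
  exact not_lt.mp hp

theorem tau_ne : UC.mk tauS ≠ 0 := by
  rw [Ne, UC.mk_eq_zero]
  intro h
  obtain ⟨p, hp⟩ := h.exists
  have h1 : ((p : ℂ) + 1) ≠ 0 := by exact_mod_cast Nat.succ_ne_zero p
  exact inv_ne_zero h1 hp

/-- The valuation of the ultrapower. -/
theorem vd : VD finS.valuation (UC.mk tauS) where
  cst c := by
    rw [ValuationSubring.valuation_le_one_iff, mem_finS]
    exact ⟨cstS c, rfl, ‖c‖, Filter.Eventually.of_forall fun p => le_rfl⟩
  ne := tau_ne
  lt := by
    by_contra hcon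
    have h1 : finS.valuation (UC.mk tauS)⁻¹ ≤ 1 := by
      rw [map_inv₀]
      exact inv_le_one_of_one_le₀ (not_lt.mp hcon)
    rw [ValuationSubring.valuation_le_one_iff, mem_finS] at h1
    obtain ⟨x, hx, C, hC⟩ := h1
    have h2 : UC.mk (x * tauS - 1) = 0 := by
      rw [map_sub, map_mul, hx, map_one, inv_mul_cancel₀ tau_ne, sub_self]
    rw [UC.mk_eq_zero] at h2
    obtain ⟨N, hN⟩ := exists_nat_gt C
    obtain ⟨p, h3, h4, h5⟩ := (h2.and (hC.and (eventually_ge N))).exists
    have h6 : ((p : ℂ) + 1) ≠ 0 := by exact_mod_cast Nat.succ_ne_zero p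
    have h7 : x p = (p : ℂ) + 1 := by
      have h8 : x p * ((p : ℂ) + 1)⁻¹ - 1 = 0 := h3
      field_simp at h8
      linear_combination h8
    rw [h7] at h4
    have h8 : ‖(p : ℂ) + 1‖ = (p : ℝ) + 1 := by
      have h9 : ((p : ℂ) + 1) = (((p : ℝ) + 1 : ℝ) : ℂ) := by push_cast; rfl
      rw [h9, Complex.norm_real, Real.norm_of_nonneg (by positivity)]
    rw [h8] at h4
    have h9 : (N : ℝ) ≤ p := by exact_mod_cast h5
    linarith

/-- Elements close to zero are represented by small sequences. -/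
theorem small_of_le {x : SQ} (hx : finS.valuation (UC.mk x) ≤ finS.valuation (UC.mk tauS))
    {ε : ℝ} (hε : 0 < ε) : ∀ᶠ p in (UN : Filter ℕ), ‖x p‖ < ε := by
  have h1 : finS.valuation (UC.mk x * (UC.mk tauS)⁻¹) ≤ 1 := by
    rw [map_mul, map_inv₀]
    exact mul_inv_le_one_of_le₀ hx zero_le
  rw [ValuationSubring.valuation_le_one_iff, mem_finS] at h1
  obtain ⟨y, hy, C, hC⟩ := h1
  have h2 : UC.mk (y * tauS - x) = 0 := by
    rw [map_sub, map_mul, hy, inv_mul_cancel_right₀ tau_ne, sub_self]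
  rw [UC.mk_eq_zero] at h2
  obtain ⟨N, hN⟩ := exists_nat_gt (|C| / ε)
  filter_upwards [h2, hC, eventually_ge N] with p h3 h4 h5
  have h6 : x p = y p * ((p : ℂ) + 1)⁻¹ := by
    have h8 : y p * ((p : ℂ) + 1)⁻¹ - x p = 0 := h3
    linear_combination -h8
  have h8 : ‖(p : ℂ) + 1‖ = (p : ℝ) + 1 := by
    have h9 : ((p : ℂ) + 1) = (((p : ℝ) + 1 : ℝ) : ℂ) := by push_cast; rfl
    rw [h9, Complex.norm_real, Real.norm_of_nonneg (by positivity)]
  rw [h6, norm_mul, norm_inv, h8, ← div_eq_mul_inv, div_lt_iff₀ (by positivity)]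
  have h9 : (N : ℝ) ≤ p := by exact_mod_cast h5
  rw [div_lt_iff₀ hε] at hN
  have h10 : ‖y p‖ ≤ |C| := h4.trans (le_abs_self C)
  nlinarith

end

end Pool.Agent.H94_lr
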