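import Mathlib

/-!
# Points over a valued field near a formal arc
-/

namespace Pool.Agent.H94_lr

open PowerSeries

noncomputable section

variable {K : Type*} [Field K] [Algebra ℂ K] {Γ : Type*} [LinearOrderedCommGroupWithZero Γ]

/-- The valuations used below. -/
structure VD (v : Valuation K Γ) (τ : K) : Prop where
  cst : ∀ c : ℂ, v (algebraMap ℂ K c) ≤ 1
  ne : τ ≠ 0
  lt : v τ < 1

/-- The value of a truncation. -/
def ev (τ : K) (M : ℕ) (f : ℂ⟦X⟧) : K := Polynomial.aeval τ (trunc M f)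

/-- The element `y` is close to the value of the power series `f`. -/
def Rel (v : Valuation K Γ) (τ : K) (M : ℕ) (y : K) (f : ℂ⟦X⟧) : Prop :=
  v (y - ev τ M f) ≤ v τ ^ M

variable {v : Valuation K Γ} {τ : K} (h : VD v τ)

include h

theorem VD.pow_le (m : ℕ) : v τ ^ m ≤ 1 := pow_le_one' h.lt.le m

theorem VD.pow_anti {m m' : ℕ} (hm : m ≤ m') : v τ ^ m' ≤ v τ ^ m :=
  pow_le_pow_right_of_le_one' h.lt.le hm

theorem VD.pos : 0 < v τ := by
  rw [zero_lt_iff, Ne, Valuation.zero_iff]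
  exact h.ne

theorem VD.poly_le (p : Polynomial ℂ) : v (Polynomial.aeval τ p) ≤ 1 := by
  induction p using Polynomial.induction_on' with
  | add p q hp hq => rw [map_add]; exact Valuation.map_add_le _ hp hq
  | monomial n a =>
    rw [Polynomial.aeval_monomial, map_mul, map_pow]
    exact mul_le_one' (h.cst a) (h.pow_le n)

theorem VD.dvd_le {p : Polynomial ℂ} {m : ℕ} (hp : Polynomial.X ^ m ∣ p) :
    v (Polynomial.aeval τ p) ≤ v τ ^ m := by
  obtain ⟨q, rfl⟩ := hp
  rw [map_mul, map_pow, Polynomial.aeval_X, map_mul, map_pow]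
  exact mul_le_of_le_one_right' (h.poly_le q)

theorem VD.ev_le (M : ℕ) (f : ℂ⟦X⟧) : v (ev τ M f) ≤ 1 := h.poly_le _

theorem VD.ev_mul (M : ℕ) (f g : ℂ⟦X⟧) :
    v (ev τ M f * ev τ M g - ev τ M (f * g)) ≤ v τ ^ M := by
  rw [ev, ev, ev, ← map_mul, ← map_sub]
  apply h.dvd_le
  rw [Polynomial.X_pow_dvd_iff]
  intro d hd
  rw [Polynomial.coeff_sub, coeff_trunc, if_pos hd, Polynomial.coeff_mul, sub_eq_zero,
    PowerSeries.coeff_mul]
  refine Finset.sum_congr rfl fun x hx => ?_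
  have h1 := Finset.HasAntidiagonal.mem_antidiagonal.mp hx
  rw [coeff_trunc, coeff_trunc, if_pos (by omega), if_pos (by omega)]

theorem VD.ev_ev {M M' : ℕ} (hM : M ≤ M') (f : ℂ⟦X⟧) :
    v (ev τ M' f - ev τ M f) ≤ v τ ^ M := by
  rw [ev, ev, ← map_sub]
  apply h.dvd_le
  rw [Polynomial.X_pow_dvd_iff]
  intro d hd
  rw [Polynomial.coeff_sub, coeff_trunc, coeff_trunc, if_pos hd, if_pos (by omega), sub_self]

theorem Rel.mono {M M' : ℕ} (hM : M ≤ M') {y : K} {f : ℂ⟦X⟧} (hr : Rel v τ M' y f) :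
    Rel v τ M y f := by
  have h1 : y - ev τ M f = (y - ev τ M' f) + (ev τ M' f - ev τ M f) := by ring
  rw [Rel, h1]
  exact Valuation.map_add_le _ (hr.trans (h.pow_anti hM)) (h.ev_ev hM f)

theorem Rel.le_one {M : ℕ} {y : K} {f : ℂ⟦X⟧} (hr : Rel v τ M y f) : v y ≤ 1 := by
  have h1 : y = (y - ev τ M f) + ev τ M f := by ring
  rw [h1]
  exact Valuation.map_add_le _ (hr.trans (h.pow_le M)) (h.ev_le M f)

omit h in
theorem Rel.add {M : ℕ} {y y' : K} {f f' : ℂ⟦X⟧} (hr : Rel v τ M y f) (hr' : Rel v τ M y' f') :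
    Rel v τ M (y + y') (f + f') := by
  have h1 : y + y' - ev τ M (f + f') = (y - ev τ M f) + (y' - ev τ M f') := by
    rw [ev, map_add, map_add, ev, ev]; ring
  rw [Rel, h1]
  exact Valuation.map_add_le _ hr hr'

theorem Rel.mul {M : ℕ} {y y' : K} {f f' : ℂ⟦X⟧} (hr : Rel v τ M y f) (hr' : Rel v τ M y' f') :
    Rel v τ M (y * y') (f * f') := by
  have h1 : y * y' - ev τ M (f * f') = (y - ev τ M f) * y' + ev τ M f * (y' - ev τ M f') +
      (ev τ M f * ev τ M f' - ev τ M (f * f')) := by ring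
  rw [Rel, h1]
  refine Valuation.map_add_le _ (Valuation.map_add_le _ ?_ ?_) (h.ev_mul M f f')
  · rw [map_mul]
    exact (mul_le_of_le_one_right' (Rel.le_one h hr')).trans hr
  · rw [map_mul]
    exact (mul_le_of_le_one_left' (h.ev_le M f)).trans hr'

theorem Rel.cst (M : ℕ) (c : ℂ) : Rel v τ M (algebraMap ℂ K c) (C c) := by
  rcases Nat.eq_zero_or_pos M with rfl | hM
  · rw [Rel, ev, trunc_zero', map_zero, sub_zero, pow_zero]
    exact h.cst c
  · obtain ⟨m, rfl⟩ : ∃ m, M = m + 1 := ⟨M - 1, by omega⟩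
    rw [Rel, ev, trunc_C, Polynomial.aeval_C, sub_self, map_zero]
    exact zero_le

/-- The value of an element close to a nonzero power series. -/
theorem Rel.val {M : ℕ} {y : K} {u : ℂ⟦X⟧} {e : ℕ} (hu : constantCoeff u ≠ 0)
    (hr : Rel v τ M y (X ^ e * u)) (he : e < M) : v y = v τ ^ e := by
  have hc : v (algebraMap ℂ K (constantCoeff u)) = 1 := by
    apply le_antisymm (h.cst _)
    have h1 := h.cst (constantCoeff u)⁻¹
    rw [map_inv₀, map_inv₀] at h1
    have h2 : v (algebraMap ℂ K (constantCoeff u)) ≠ 0 := by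
      rw [Ne, Valuation.zero_iff, map_eq_zero_iff _ (algebraMap ℂ K).injective]
      exact hu
    exact (inv_le_one₀ (zero_lt_iff.mpr h2)).mp h1
  -- the truncation
  have h1 : ∃ q : Polynomial ℂ, trunc M (X ^ e * u) =
      Polynomial.X ^ e * (Polynomial.C (constantCoeff u) + Polynomial.X * q) := by
    have h2 : Polynomial.X ^ e ∣ trunc M (X ^ e * u) := by
      rw [Polynomial.X_pow_dvd_iff]
      intro d hd
      rw [coeff_trunc, if_pos (by omega), coeff_X_pow_mul', if_neg (by omega)]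
    obtain ⟨w, hw⟩ := h2
    have h3 : w.coeff 0 = constantCoeff u := by
      have h4 : Polynomial.coeff (trunc M (X ^ e * u)) e =
          Polynomial.coeff (Polynomial.X ^ e * w) e := by rw [hw]
      rw [coeff_trunc, if_pos he, coeff_X_pow_mul', if_pos le_rfl, Nat.sub_self,
        Polynomial.coeff_X_pow_mul', if_pos le_rfl, Nat.sub_self] at h4
      rw [← h4, coeff_zero_eq_constantCoeff_apply]
    refine ⟨w.divX, ?_⟩
    rw [hw, ← h3]
    congr 1
    conv_lhs => rw [← Polynomial.divX_mul_X_add w]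
    ring
  obtain ⟨q, hq⟩ := h1
  have h2 : v (ev τ M (X ^ e * u)) = v τ ^ e := by
    rw [ev, hq, map_mul, map_pow, Polynomial.aeval_X, map_mul, map_pow, map_add, map_mul,
      Polynomial.aeval_C, Polynomial.aeval_X]
    have h3 : v (τ * Polynomial.aeval τ q) < v (algebraMap ℂ K (constantCoeff u)) := by
      rw [hc, map_mul]
      exact (mul_le_of_le_one_right' (h.poly_le q)).trans_lt h.lt
    rw [Valuation.map_add_eq_of_lt_left _ h3, hc, mul_one]
  have h3 : v (y - ev τ M (X ^ e * u)) < v (ev τ M (X ^ e * u)) := by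
    rw [h2]
    refine lt_of_le_of_lt hr ?_
    exact pow_lt_pow_right_of_lt_one₀ h.pos h.lt he
  have h4 : y = (y - ev τ M (X ^ e * u)) + ev τ M (X ^ e * u) := by ring
  rw [h4, Valuation.map_add_eq_of_lt_right _ h3, h2]

end

end Pool.Agent.H94_lr
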